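import Mathlib
import Pool.Agent.H932R3.Finals

set_option autoImplicit false

/-!
# Forms of large degree interpolate jets at the points of the plane
-/

namespace Pool.Agent.H350R3.SE

open Polynomial Pool.Agent.H932R2 Pool.Agent.H932R3

variable {K : Type} [Field K]

/-- The ideal `(X₂ - v₂) + 𝔪_v ^ m`. -/
noncomputable def EI (v : Fin 3 → K) (m : ℕ) : Ideal (MvPolynomial (Fin 3) K) :=
  Ideal.span {MvPolynomial.X 2 - MvPolynomial.C (v 2)} ⊔
    (Ideal.span (Set.range fun i : Fin 3 => MvPolynomial.X i - MvPolynomial.C (v i))) ^ m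

/-- Restriction to `X₂ = c`, in coordinates scaled by `c`. -/
noncomputable def dc (c : K) : MvPolynomial (Fin 3) K →ₐ[K] K[X][X] :=
  MvPolynomial.aeval (fun j => C (C c) * (![C X, X, 1] : Fin 3 → K[X][X]) j)

theorem dc_X0 (c : K) : dc c (MvPolynomial.X 0) = C (C c) * C X := by
  simp [dc]

theorem dc_X1 (c : K) : dc c (MvPolynomial.X 1) = C (C c) * X := by
  simp [dc]

theorem dc_X2 (c : K) : dc c (MvPolynomial.X 2) = C (C c) := by
  simp [dc]

theorem dc_C (c a : K) : dc c (MvPolynomial.C a) = C (C a) := (dc c).commutes a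

theorem dc_homog {c : K} {d : ℕ} {F : MvPolynomial (Fin 3) K} (hF : F.IsHomogeneous d) :
    dc c F = C (C c) ^ d * deh K F := by
  unfold dc deh
  exact aeval_mul_homog hF _ _

/-- The inverse substitution. -/
noncomputable def uc (c : K) : K[X][X] →+* MvPolynomial (Fin 3) K :=
  eval₂RingHom (eval₂RingHom (MvPolynomial.C : K →+* MvPolynomial (Fin 3) K)
    (MvPolynomial.C c⁻¹ * MvPolynomial.X 0)) (MvPolynomial.C c⁻¹ * MvPolynomial.X 1)

theorem uc_C (c a : K) : uc c (C (C a)) = MvPolynomial.C a := by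
  simp [uc]

theorem uc_CX (c : K) : uc c (C X) = MvPolynomial.C c⁻¹ * MvPolynomial.X 0 := by
  simp [uc]

theorem uc_X (c : K) : uc c X = MvPolynomial.C c⁻¹ * MvPolynomial.X 1 := by
  simp [uc]

theorem CC {c : K} (hc : c ≠ 0) :
    (MvPolynomial.C c : MvPolynomial (Fin 3) K) * MvPolynomial.C c⁻¹ = 1 := by
  rw [← MvPolynomial.C_mul, mul_inv_cancel₀ hc, MvPolynomial.C_1]

theorem uc_dc_sub {c : K} (hc : c ≠ 0) (F : MvPolynomial (Fin 3) K) :
    uc c (dc c F) - F ∈ (Ideal.span {MvPolynomial.X 2 - MvPolynomial.C c} :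
      Ideal (MvPolynomial (Fin 3) K)) := by
  rw [← Ideal.Quotient.eq]
  have h : ((Ideal.Quotient.mk (Ideal.span {MvPolynomial.X 2 - MvPolynomial.C c} :
      Ideal (MvPolynomial (Fin 3) K))).comp (uc c)).comp (dc c : MvPolynomial (Fin 3) K →+* K[X][X])
      = Ideal.Quotient.mk _ := by
    refine MvPolynomial.ringHom_ext (fun a => ?_) fun i => ?_
    · simp only [RingHom.comp_apply, RingHom.coe_coe, dc_C, uc_C]
    · simp only [RingHom.comp_apply, RingHom.coe_coe]
      fin_cases i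
      · show Ideal.Quotient.mk _ (uc c (dc c (MvPolynomial.X 0))) =
          Ideal.Quotient.mk _ (MvPolynomial.X 0)
        rw [dc_X0, map_mul, uc_C, uc_CX, ← mul_assoc, CC hc, one_mul]
      · show Ideal.Quotient.mk _ (uc c (dc c (MvPolynomial.X 1))) =
          Ideal.Quotient.mk _ (MvPolynomial.X 1)
        rw [dc_X1, map_mul, uc_C, uc_X, ← mul_assoc, CC hc, one_mul]
      · show Ideal.Quotient.mk _ (uc c (dc c (MvPolynomial.X 2))) =
          Ideal.Quotient.mk _ (MvPolynomial.X 2)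
        rw [dc_X2, uc_C]
        refine (Ideal.Quotient.eq.2 ?_).symm
        exact Ideal.subset_span rfl
  exact congrArg (fun φ : MvPolynomial (Fin 3) K →+* _ => φ F) h

theorem dc_mem {v : Fin 3 → K} (hv : v 2 ≠ 0) {m : ℕ} {F : MvPolynomial (Fin 3) K}
    (hF : F ∈ EI v m) : dc (v 2) F ∈ cIdeal (fun _ : Fin 1 => v 0 / v 2) (C (v 1 / v 2)) m := by
  have h := Ideal.mem_map_of_mem (dc (v 2)) hF
  refine Set.mem_of_mem_of_subset h ?_
  show Ideal.map (dc (v 2)) (EI v m) ≤ _
  unfold EI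
  rw [Ideal.map_sup, Ideal.map_pow, Ideal.map_span, Ideal.map_span, Set.image_singleton]
  refine sup_le ?_ ?_
  · rw [Ideal.span_le, Set.singleton_subset_iff]
    rw [map_sub, dc_X2, dc_C, sub_self]
    exact Ideal.zero_mem _
  · unfold cIdeal
    refine Ideal.pow_right_mono ?_ m
    rw [Ideal.span_le]
    rintro _ ⟨_, ⟨i, rfl⟩, rfl⟩
    have hCC : ∀ a : K, C (C (v 2)) * C (C (a / v 2)) = (C (C a) : K[X][X]) := by
      intro a
      rw [← C_mul, ← C_mul, mul_div_cancel₀ a hv]
    rw [rootPoly_const, pow_one]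
    fin_cases i
    · show dc (v 2) (MvPolynomial.X 0 - MvPolynomial.C (v 0)) ∈ _
      have : dc (v 2) (MvPolynomial.X 0 - MvPolynomial.C (v 0)) =
          C (C (v 2)) * C (X - C (v 0 / v 2)) := by
        rw [map_sub, dc_X0, dc_C, C_sub, mul_sub, hCC]
      rw [this]
      exact Ideal.mul_mem_left _ _ (Ideal.subset_span (Or.inr rfl))
    · show dc (v 2) (MvPolynomial.X 1 - MvPolynomial.C (v 1)) ∈ _
      have : dc (v 2) (MvPolynomial.X 1 - MvPolynomial.C (v 1)) =
          C (C (v 2)) * (X - C (C (v 1 / v 2))) := by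
        rw [map_sub, dc_X1, dc_C, mul_sub, hCC]
      rw [this]
      exact Ideal.mul_mem_left _ _ (Ideal.subset_span (Or.inl rfl))
    · have : dc (v 2) (MvPolynomial.X 2 - MvPolynomial.C (v 2)) = 0 := by
        rw [map_sub, dc_X2, dc_C, sub_self]
      show dc (v 2) (MvPolynomial.X 2 - MvPolynomial.C (v 2)) ∈ _
      rw [this]
      exact Ideal.zero_mem _

theorem mem_of_dc {v : Fin 3 → K} (hv : v 2 ≠ 0) {m : ℕ} {F : MvPolynomial (Fin 3) K}
    (hF : dc (v 2) F ∈ cIdeal (fun _ : Fin 1 => v 0 / v 2) (C (v 1 / v 2)) m) : F ∈ EI v m := by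
  have h1 : uc (v 2) (dc (v 2) F) ∈ EI v m := by
    have h := Ideal.mem_map_of_mem (uc (v 2)) hF
    refine Set.mem_of_mem_of_subset h ?_
    show Ideal.map (uc (v 2)) _ ≤ _
    unfold cIdeal
    rw [Ideal.map_pow, Ideal.map_span, rootPoly_const, pow_one, Set.image_pair]
    refine le_trans ?_ le_sup_right
    refine Ideal.pow_right_mono ?_ m
    rw [Ideal.span_le, Set.insert_subset_iff, Set.singleton_subset_iff]
    have hCC : ∀ a : K, (MvPolynomial.C (a / v 2) : MvPolynomial (Fin 3) K) =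
        MvPolynomial.C (v 2)⁻¹ * MvPolynomial.C a := by
      intro a
      rw [← MvPolynomial.C_mul, div_eq_inv_mul]
    constructor
    · have : uc (v 2) (X - C (C (v 1 / v 2))) =
          MvPolynomial.C (v 2)⁻¹ * (MvPolynomial.X 1 - MvPolynomial.C (v 1)) := by
        rw [map_sub, uc_X, uc_C, hCC, mul_sub]
      show uc (v 2) (X - C (C (v 1 / v 2))) ∈ _
      rw [this]
      exact Ideal.mul_mem_left _ _ (Ideal.subset_span ⟨1, rfl⟩)
    · have : uc (v 2) (C (X - C (v 0 / v 2))) =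
          MvPolynomial.C (v 2)⁻¹ * (MvPolynomial.X 0 - MvPolynomial.C (v 0)) := by
        rw [C_sub, map_sub, uc_CX, uc_C, hCC, mul_sub]
      show uc (v 2) (C (X - C (v 0 / v 2))) ∈ _
      rw [this]
      exact Ideal.mul_mem_left _ _ (Ideal.subset_span ⟨0, rfl⟩)
  have h2 : uc (v 2) (dc (v 2) F) - F ∈ EI v m :=
    (le_sup_left : Ideal.span {MvPolynomial.X 2 - MvPolynomial.C (v 2)} ≤ EI v m)
      (uc_dc_sub hv F)
  have h3 := Ideal.sub_mem _ h1 h2
  rwa [sub_sub_cancel] at h3

theorem finrank_homog (d : ℕ) :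
    Module.finrank K ↥(MvPolynomial.homogeneousSubmodule (Fin 3) K d) = (d + 2).choose 2 := by
  have h1 := finrank_forms (K := K) (d := d) ⊤ ⊤ (fun F _ => by simp)
  rw [inf_top_eq, inf_top_eq, ← coe_Tfin] at h1
  rw [h1]
  have h2 : Module.finrank K ↥(mspan K (↑(Tfin d) : Set (ℕ × ℕ))) = (Tfin d).card := by
    have h3 := LinearEquiv.finrank_eq (LinearEquiv.ofInjective (coordMap K (Tfin d))
      (coordMap_inj (Tfin d)))
    rw [Module.finrank_fin_fun] at h3
    rw [h3]
    have h4 : mspan K (↑(Tfin d) : Set (ℕ × ℕ)) = LinearMap.range (coordMap K (Tfin d)) := by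
      ext f
      exact mem_mspan_iff (Tfin d) f
    rw [h4]
  rw [h2]
  have h5 := card_Tfin d
  have h6 := Nat.choose_two_right (d + 2)
  have h7 : d + 2 - 1 = d + 1 := rfl
  rw [h7] at h6
  have h8 : (d + 2) * (d + 1) = 2 * (Tfin d).card := by rw [h5, mul_comm]
  rw [h6, h8, Nat.mul_div_cancel_left _ (by norm_num)]

/-- Interpolation of jets by forms of degree `d`. -/
theorem surj {r m d : ℕ} {v : Fin r → Fin 3 → K} (hv : ∀ j, v j 2 ≠ 0)
    (hexp : ExpDim K (fun _ => m) (fun j i => v j (Fin.castSucc i) / v j 2) d)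
    (hle : r * (m + 1).choose 2 ≤ (d + 2).choose 2) (G : MvPolynomial (Fin 3) K) :
    ∃ F ∈ MvPolynomial.homogeneousSubmodule (Fin 3) K d, ∀ j, G - F ∈ EI (v j) m := by
  classical
  let Θ : MvPolynomial (Fin 3) K →ₗ[K] (Fin r → EE 1 m → K) :=
    LinearMap.pi fun j => (condMap 1 m (v j 0 / v j 2) (C (v j 1 / v j 2))).comp
      (dc (v j 2)).toLinearMap
  have hΘ : ∀ F, Θ F = 0 ↔ ∀ j, F ∈ EI (v j) m := by
    intro F
    constructor
    · intro h j
      refine mem_of_dc (hv j) ?_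
      rw [mem_cIdeal_iff']
      exact congrFun h j
    · intro h
      funext j
      exact mem_cIdeal_iff'.1 (dc_mem (hv j) (h j))
  set H := MvPolynomial.homogeneousSubmodule (Fin 3) K d with hH
  have hfinH : Module.Finite K ↥H :=
    Module.Finite.iff_fg.2 (MvPolynomial.homogeneousSubmodule_fg _ _ d)
  let Φ : H →ₗ[K] (Fin r → EE 1 m → K) := Θ.comp H.subtype
  have hker : Module.finrank K (LinearMap.ker Φ) = (d + 2).choose 2 - ∑ _j : Fin r, (m + 1).choose 2 := by
    unfold ExpDim at hexp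
    rw [← hexp]
    set T := (MvPolynomial.homogeneousSubmodule (Fin 3) K d ⊓
      Submodule.restrictScalars K
        (⨅ i : Fin r,
          (Ideal.span
            ({MvPolynomial.X 0 - MvPolynomial.C (v i (Fin.castSucc 0) / v i 2) * MvPolynomial.X 2,
              MvPolynomial.X 1 - MvPolynomial.C (v i (Fin.castSucc 1) / v i 2) * MvPolynomial.X 2} :
              Set (MvPolynomial (Fin 3) K))) ^ m)) with hT
    have h1 : (LinearMap.ker Φ).map H.subtype = T := by
      ext F
      rw [Submodule.mem_map, hT, Submodule.mem_inf, Submodule.restrictScalars_mem, Ideal.mem_iInf]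
      constructor
      · rintro ⟨⟨F', hF'⟩, h2, rfl⟩
        refine ⟨hF', fun j => ?_⟩
        have h3 := (hΘ F').1 h2 j
        have h4 := dc_mem (hv j) h3
        rw [dc_homog ((MvPolynomial.mem_homogeneousSubmodule _ _).1 hF')] at h4
        refine (mem_ptIdeal_iff hF').2 ?_
        have h5 := Ideal.mul_mem_left _ (C (C (v j 2)⁻¹) ^ d) h4
        rw [← mul_assoc, ← mul_pow, ← C_mul, ← C_mul, inv_mul_cancel₀ (hv j), C_1, C_1, one_pow,
          one_mul] at h5
        exact h5
      · rintro ⟨hF, h2⟩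
        refine ⟨⟨F, hF⟩, ?_, rfl⟩
        refine (hΘ F).2 fun j => mem_of_dc (hv j) ?_
        rw [dc_homog ((MvPolynomial.mem_homogeneousSubmodule _ _).1 hF)]
        exact Ideal.mul_mem_left _ _ ((mem_ptIdeal_iff hF).1 (h2 j))
    rw [← h1]
    exact (LinearEquiv.finrank_eq (Submodule.equivMapOfInjective H.subtype
      H.injective_subtype (LinearMap.ker Φ)))
  have hrk := LinearMap.finrank_range_add_finrank_ker Φ
  have hdimH : Module.finrank K H = (d + 2).choose 2 := finrank_homog d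
  have hsurj : LinearMap.range Φ = ⊤ := by
    apply Submodule.eq_top_of_finrank_eq
    rw [Module.finrank_pi_fintype]
    simp only [Module.finrank_fintype_fun_eq_card, Fintype.card_coe, card_EE_eq, Finset.sum_const,
      Finset.card_univ, Fintype.card_fin, smul_eq_mul] at hker ⊢
    omega
  obtain ⟨F, hF⟩ := LinearMap.range_eq_top.1 hsurj (Θ G)
  refine ⟨F, F.2, (hΘ _).1 ?_⟩
  rw [map_sub, sub_eq_zero]
  exact hF.symm

end Pool.Agent.H350R3.SE
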