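import Mathlib
import Pool.Agent.H350R3.SE.Surj

set_option autoImplicit false

/-!
# Graded algebras finite over a polynomial ring in three variables
-/

namespace Pool.Agent.H350R3.SE

open MvPolynomial

section graded

variable {S : Type} [CommRing S] [Algebra ℂ S] (𝒮 : ℕ → Submodule ℂ S) [GradedAlgebra 𝒮]
  {y : Fin 3 → S}

theorem aeval_mem (hy : ∀ i, y i ∈ 𝒮 1) {d : ℕ} {F : MvPolynomial (Fin 3) ℂ}
    (hF : F ∈ homogeneousSubmodule (Fin 3) ℂ d) : aeval y F ∈ 𝒮 d := by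
  rw [mem_homogeneousSubmodule] at hF
  rw [F.as_sum, map_sum]
  refine Submodule.sum_mem _ fun s hs => ?_
  have h1 : s 0 + s 1 + s 2 = d := by
    have := Pool.Agent.H932R2.sum_eq_of_homog hF (mem_support_iff.1 hs)
    omega
  rw [aeval_monomial, Finsupp.prod_fintype _ _ (fun i => by simp), Fin.prod_univ_three,
    ← Algebra.smul_def]
  refine Submodule.smul_mem _ _ ?_
  have h2 : ∀ i : Fin 3, y i ^ s i ∈ 𝒮 (s i) := fun i => by
    have := SetLike.pow_mem_graded (s i) (hy i)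
    rwa [smul_eq_mul, mul_one] at this
  have h3 := SetLike.mul_mem_graded (SetLike.mul_mem_graded (h2 0) (h2 1)) (h2 2)
  rwa [h1] at h3

/-- Homogeneous generators. -/
theorem exists_gens (hfin : (aeval y : MvPolynomial (Fin 3) ℂ →ₐ[ℂ] S).Finite) :
    ∃ (ι : Type) (_ : Fintype ι) (g : ι → S) (e : ι → ℕ), (∀ l, g l ∈ 𝒮 (e l)) ∧
      ∀ x, ∃ a : ι → MvPolynomial (Fin 3) ℂ, x = ∑ l, aeval y (a l) * g l := by
  classical
  let algA : Algebra (MvPolynomial (Fin 3) ℂ) S :=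
    (aeval y : MvPolynomial (Fin 3) ℂ →ₐ[ℂ] S).toRingHom.toAlgebra
  have hfin' : Module.Finite (MvPolynomial (Fin 3) ℂ) S := hfin
  obtain ⟨T, hT⟩ := hfin'.fg_top
  let W : Finset (S × ℕ) := T.biUnion fun t =>
    (DirectSum.decompose 𝒮 t).support.image fun i => ((DirectSum.decompose 𝒮 t i : S), i)
  have hW : ∀ p ∈ W, p.1 ∈ 𝒮 p.2 := by
    intro p hp
    simp only [W, Finset.mem_biUnion, Finset.mem_image] at hp
    obtain ⟨t, _, i, _, rfl⟩ := hp
    exact SetLike.coe_mem _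
  refine ⟨W, inferInstance, fun p => p.1.1, fun p => p.1.2, fun p => hW p.1 p.2, fun x => ?_⟩
  have h1 : Submodule.span (MvPolynomial (Fin 3) ℂ) (Set.range fun p : W => p.1.1) = ⊤ := by
    rw [eq_top_iff, ← hT, Submodule.span_le]
    intro t ht
    rw [SetLike.mem_coe, ← DirectSum.sum_support_decompose 𝒮 t]
    refine Submodule.sum_mem _ fun i hi => Submodule.subset_span ?_
    have hmem : ((DirectSum.decompose 𝒮 t i : S), i) ∈ W :=
      Finset.mem_biUnion.2 ⟨t, ht, Finset.mem_image.2 ⟨i, hi, rfl⟩⟩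
    exact ⟨⟨_, hmem⟩, rfl⟩
  have h2 : x ∈ Submodule.span (MvPolynomial (Fin 3) ℂ) (Set.range fun p : W => p.1.1) := by
    rw [h1]
    exact Submodule.mem_top
  obtain ⟨c, hc⟩ := (Submodule.mem_span_range_iff_exists_fun _).1 h2
  exact ⟨c, hc.symm⟩

/-- Each graded piece is finite-dimensional. -/
theorem finite_piece (hy : ∀ i, y i ∈ 𝒮 1)
    (hfin : (aeval y : MvPolynomial (Fin 3) ℂ →ₐ[ℂ] S).Finite) (k : ℕ) :
    Module.Finite ℂ (𝒮 k) := by
  classical
  obtain ⟨ι, _, g, e, hg, hspan⟩ := exists_gens 𝒮 hfin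
  let V : Submodule ℂ S := ⨆ l : ι, (homogeneousSubmodule (Fin 3) ℂ (k - e l)).map
    ((LinearMap.mulRight ℂ (g l)).comp (aeval y : MvPolynomial (Fin 3) ℂ →ₐ[ℂ] S).toLinearMap)
  have hV : Module.Finite ℂ V := by
    have : ∀ l : ι, Module.Finite ℂ ((homogeneousSubmodule (Fin 3) ℂ (k - e l)).map
      ((LinearMap.mulRight ℂ (g l)).comp
        (aeval y : MvPolynomial (Fin 3) ℂ →ₐ[ℂ] S).toLinearMap)) := by
      intro l
      have : Module.Finite ℂ ↥(homogeneousSubmodule (Fin 3) ℂ (k - e l)) :=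
        Module.Finite.iff_fg.2 (homogeneousSubmodule_fg _ _ _)
      infer_instance
    infer_instance
  have hle : 𝒮 k ≤ V := by
    intro x hx
    obtain ⟨a, ha⟩ := hspan x
    have h1 : x = ∑ l, ∑ j ∈ Finset.range ((a l).totalDegree + 1),
        aeval y (homogeneousComponent j (a l)) * g l := by
      rw [ha]
      refine Finset.sum_congr rfl fun l _ => ?_
      conv_lhs => rw [← sum_homogeneousComponent (a l)]
      rw [map_sum, Finset.sum_mul]
    have h2 : x = (DirectSum.decompose 𝒮 x k : S) := (DirectSum.decompose_of_mem_same 𝒮 hx).symm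
    rw [h2, h1, DirectSum.decompose_sum, DFinsupp.finsetSum_apply,
      AddSubmonoidClass.coe_finsetSum]
    refine Submodule.sum_mem _ fun l _ => ?_
    rw [DirectSum.decompose_sum, DFinsupp.finsetSum_apply, AddSubmonoidClass.coe_finsetSum]
    refine Submodule.sum_mem _ fun j _ => ?_
    have h3 : aeval y (homogeneousComponent j (a l)) * g l ∈ 𝒮 (j + e l) :=
      SetLike.mul_mem_graded (aeval_mem 𝒮 hy (homogeneousComponent_mem j (a l))) (hg l)
    by_cases hjk : j + e l = k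
    · rw [hjk] at h3
      rw [DirectSum.decompose_of_mem_same 𝒮 h3]
      refine Submodule.mem_iSup_of_mem l ?_
      have hj : j = k - e l := by omega
      refine ⟨homogeneousComponent j (a l), ?_, rfl⟩
      rw [← hj]
      exact homogeneousComponent_mem j (a l)
    · rw [DirectSum.decompose_of_mem_ne 𝒮 h3 hjk]
      exact Submodule.zero_mem _
  exact Submodule.finiteDimensional_of_le hle

theorem interp (hy : ∀ i, y i ∈ 𝒮 1) {ι : Type} [Fintype ι] {g : ι → S} {e : ι → ℕ}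
    (hg : ∀ l, g l ∈ 𝒮 (e l))
    (hspan : ∀ x, ∃ a : ι → MvPolynomial (Fin 3) ℂ, x = ∑ l, aeval y (a l) * g l)
    {r : ℕ} (v : Fin r → Fin 3 → ℂ) (m k : ℕ) (hk : ∀ l, e l ≤ k)
    (hsurj : ∀ l, ∀ G : MvPolynomial (Fin 3) ℂ,
      ∃ F ∈ homogeneousSubmodule (Fin 3) ℂ (k - e l), ∀ j, G - F ∈ EI (v j) m) (x : S) :
    ∃ z ∈ 𝒮 k, ∀ (J : Ideal S) (j : Fin r), (∀ F ∈ EI (v j) m, aeval y F ∈ J) → x - z ∈ J := by
  obtain ⟨a, ha⟩ := hspan x
  choose F hF hF' using fun l => hsurj l (a l)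
  refine ⟨∑ l, aeval y (F l) * g l, Submodule.sum_mem _ fun l _ => ?_, fun J j hJ => ?_⟩
  · have h1 := SetLike.mul_mem_graded (aeval_mem 𝒮 hy (hF l)) (hg l)
    rwa [Nat.sub_add_cancel (hk l)] at h1
  · rw [ha, ← Finset.sum_sub_distrib]
    refine Ideal.sum_mem _ fun l _ => ?_
    rw [← sub_mul, ← map_sub]
    exact Ideal.mul_mem_right _ _ (hJ _ (hF' l j))

end graded

variable {S : Type} [CommRing S] [Algebra ℂ S] {y : Fin 3 → S}

theorem EI_map {φ : S →ₐ[ℂ] ℂ} {v : Fin 3 → ℂ} (hφ : ∀ i, φ (y i) = v i) {m : ℕ}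
    {F : MvPolynomial (Fin 3) ℂ} (hF : F ∈ EI v m) :
    aeval y F ∈ Ideal.span {y 2 - algebraMap ℂ S (φ (y 2))} ⊔ (RingHom.ker φ) ^ m := by
  have h := Ideal.mem_map_of_mem (aeval y : MvPolynomial (Fin 3) ℂ →ₐ[ℂ] S) hF
  refine Set.mem_of_mem_of_subset h ?_
  show Ideal.map (aeval y : MvPolynomial (Fin 3) ℂ →ₐ[ℂ] S) (EI v m) ≤ _
  unfold EI
  rw [Ideal.map_sup, Ideal.map_pow, Ideal.map_span, Ideal.map_span, Set.image_singleton]
  have h1 : ∀ i, aeval y (X i - C (v i)) = y i - algebraMap ℂ S (φ (y i)) := by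
    intro i
    rw [map_sub, aeval_X, aeval_C, hφ]
  refine sup_le_sup ?_ (Ideal.pow_right_mono ?_ m)
  · rw [h1 2]
  · rw [Ideal.span_le]
    rintro _ ⟨_, ⟨i, rfl⟩, rfl⟩
    show aeval y (X i - C (v i)) ∈ RingHom.ker φ
    rw [h1, RingHom.mem_ker, map_sub, AlgHom.commutes, Algebra.algebraMap_self_apply, sub_self]

theorem coprime_ker {φ ψ : S →ₐ[ℂ] ℂ} (h : φ ≠ ψ) :
    IsCoprime (RingHom.ker φ) (RingHom.ker ψ) := by
  rw [Ideal.isCoprime_iff_exists]
  have h1 : ∃ s, φ s ≠ ψ s := by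
    by_contra hcon
    push Not at hcon
    exact h (AlgHom.ext hcon)
  obtain ⟨s, hs⟩ := h1
  have h2 : φ s - ψ s ≠ 0 := sub_ne_zero.2 hs
  refine ⟨(φ s - ψ s)⁻¹ • (algebraMap ℂ S (φ s) - s), ?_,
    (φ s - ψ s)⁻¹ • (s - algebraMap ℂ S (ψ s)), ?_, ?_⟩
  · rw [RingHom.mem_ker, map_smul, map_sub, AlgHom.commutes, Algebra.algebraMap_self_apply,
      sub_self, smul_zero]
  · rw [RingHom.mem_ker, map_smul, map_sub, AlgHom.commutes, Algebra.algebraMap_self_apply,
      sub_self, smul_zero]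
  · rw [← smul_add, sub_add_sub_cancel, ← map_sub, Algebra.smul_def, ← map_mul,
      inv_mul_cancel₀ h2, map_one]

/-- The dimension estimate. -/
theorem dim_le {n : ℕ} {φ : Fin n → S →ₐ[ℂ] ℂ} (hφ : Function.Injective φ) (Q : Ideal S)
    (J : Fin n → Ideal S) (m : ℕ) (hJ : ∀ i, Q ⊔ (RingHom.ker (φ i)) ^ m ≤ J i)
    (W : Submodule ℂ S) [Module.Finite ℂ W]
    (hint : ∀ x, ∃ z ∈ W, ∀ i, x - z ∈ J i) :
    ∑ i, Module.finrank ℂ (S ⧸ J i) ≤
      Module.finrank ℂ (W ⧸ (Q.restrictScalars ℂ).comap W.subtype) := by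
  classical
  let Λ : W →ₗ[ℂ] (∀ i, S ⧸ J i) :=
    LinearMap.pi fun i => ((Ideal.Quotient.mkₐ ℂ (J i)).toLinearMap).comp W.subtype
  have hcop : Pairwise (Function.onFun IsCoprime J) := by
    intro i j hij
    have h1 : IsCoprime (RingHom.ker (φ i)) (RingHom.ker (φ j)) :=
      coprime_ker (fun h => hij (hφ h))
    have h2 := h1.pow (m := m) (n := m)
    show IsCoprime (J i) (J j)
    rw [Ideal.isCoprime_iff_exists] at h2 ⊢
    obtain ⟨a, ha, b, hb, hab⟩ := h2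
    exact ⟨a, hJ i (Submodule.mem_sup_right ha), b, hJ j (Submodule.mem_sup_right hb), hab⟩
  have hsurj : Function.Surjective Λ := by
    intro t
    obtain ⟨x, hx⟩ := Ideal.pi_quotient_surjective hcop t
    obtain ⟨z, hz, hz'⟩ := hint x
    refine ⟨⟨z, hz⟩, funext fun i => ?_⟩
    rw [← hx i]
    show Ideal.Quotient.mk (J i) z = Ideal.Quotient.mk (J i) x
    rw [Ideal.Quotient.eq, ← neg_sub, neg_mem_iff]
    exact hz' i
  have hle : (Q.restrictScalars ℂ).comap W.subtype ≤ LinearMap.ker Λ := by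
    intro w hw
    rw [LinearMap.mem_ker]
    funext i
    show Ideal.Quotient.mk (J i) (w : S) = 0
    rw [Ideal.Quotient.eq_zero_iff_mem]
    exact hJ i (Submodule.mem_sup_left hw)
  have hfin : Module.Finite ℂ (∀ i, S ⧸ J i) := Module.Finite.of_surjective Λ hsurj
  have hfin' : ∀ i, Module.Finite ℂ (S ⧸ J i) := fun i =>
    Module.Finite.of_surjective (LinearMap.proj i : (∀ i, S ⧸ J i) →ₗ[ℂ] S ⧸ J i)
      (LinearMap.proj_surjective i)
  rw [← Module.finrank_pi_fintype]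
  refine LinearMap.finrank_le_finrank_of_surjective
    (f := Submodule.liftQ _ Λ hle) ?_
  intro t
  obtain ⟨w, hw⟩ := hsurj t
  exact ⟨Submodule.Quotient.mk w, hw⟩

end Pool.Agent.H350R3.SE
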