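import Mathlib

set_option autoImplicit false

/-!
# Points in the general fibre of a finite morphism
-/

namespace Pool.Agent.H350R3.SE

open Polynomial

/-- A primitive element in the ring, with its discriminant-like element. -/
theorem exists_theta (A S : Type) [CommRing A] [IsDomain A] [IsIntegrallyClosed A] [CharZero A]
    [CommRing S] [IsDomain S] [Algebra A S] [Module.Finite A S] [FaithfulSMul A S] :
    ∃ (θ : S) (G : A) (u w : A[X]), G ≠ 0 ∧
      (minpoly A θ).natDegree = Module.finrank A S ∧
      u * minpoly A θ + w * derivative (minpoly A θ) = C G := by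
  classical
  let _ := FractionRing.liftAlgebra A (FractionRing S)
  have hst : IsScalarTower A (FractionRing A) (FractionRing S) :=
    FractionRing.isScalarTower_liftAlgebra A (FractionRing S)
  have hint : Algebra.IsIntegral A S := inferInstance
  have hloc : IsLocalization (Algebra.algebraMapSubmonoid S (nonZeroDivisors A)) (FractionRing S) :=
    inferInstance
  have hfin : Module.Finite (FractionRing A) (FractionRing S) :=
    Module.Finite.of_isLocalization A S (nonZeroDivisors A)
  have hchar : CharZero (FractionRing A) := inferInstance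
  obtain ⟨α, hα⟩ := Field.exists_primitive_element (FractionRing A) (FractionRing S)
  obtain ⟨⟨θ, ⟨t, a, ha, rfl⟩⟩, hθ⟩ :=
    IsLocalization.surj (Algebra.algebraMapSubmonoid S (nonZeroDivisors A)) α
  simp only at hθ
  have ha0 : a ≠ 0 := nonZeroDivisors.ne_zero ha
  have hθ2 : IntermediateField.adjoin (FractionRing A) {algebraMap S (FractionRing S) θ} = ⊤ := by
    rw [eq_top_iff, ← hα, IntermediateField.adjoin_simple_le_iff]
    have h1 : algebraMap S (FractionRing S) (algebraMap A S a) =
        algebraMap (FractionRing A) (FractionRing S) (algebraMap A (FractionRing A) a) := by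
      rw [← IsScalarTower.algebraMap_apply A S (FractionRing S),
        ← IsScalarTower.algebraMap_apply A (FractionRing A) (FractionRing S)]
    have h2 : algebraMap S (FractionRing S) (algebraMap A S a) ≠ 0 := by
      rw [Ne, FaithfulSMul.algebraMap_eq_zero_iff, FaithfulSMul.algebraMap_eq_zero_iff]
      exact ha0
    have h3 : α = algebraMap S (FractionRing S) θ *
        (algebraMap (FractionRing A) (FractionRing S) (algebraMap A (FractionRing A) a))⁻¹ := by
      rw [← hθ, ← h1, mul_assoc, mul_inv_cancel₀ h2, mul_one]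
    rw [h3]
    refine IntermediateField.mul_mem _ (IntermediateField.mem_adjoin_simple_self _ _) ?_
    exact IntermediateField.inv_mem _ (IntermediateField.algebraMap_mem _ _)
  have hθi : IsIntegral A θ := Algebra.IsIntegral.isIntegral θ
  have hmin := minpoly.isIntegrallyClosed_eq_field_fractions (FractionRing A) (FractionRing S) hθi
  have hdeg : (minpoly A θ).natDegree = Module.finrank A S := by
    have h1 := (Field.primitive_element_iff_minpoly_natDegree_eq (FractionRing A)
      (algebraMap S (FractionRing S) θ)).1 hθ2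
    rw [hmin, (minpoly.monic hθi).natDegree_map] at h1
    rw [h1]
    exact IsFractionRing.finrank_eq A (FractionRing A) S (FractionRing S)
  have hsep : ((minpoly A θ).map (algebraMap A (FractionRing A))).Separable := by
    rw [← hmin]
    exact Algebra.IsSeparable.isSeparable (FractionRing A) _
  obtain ⟨u, w, huw⟩ := hsep
  obtain ⟨b1, h1⟩ := IsLocalization.integerNormalization_map_to_map (nonZeroDivisors A) u
  obtain ⟨b2, h2⟩ := IsLocalization.integerNormalization_map_to_map (nonZeroDivisors A) w
  refine ⟨θ, b1 * b2, C (b2 : A) * IsLocalization.integerNormalization (nonZeroDivisors A) u,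
    C (b1 : A) * IsLocalization.integerNormalization (nonZeroDivisors A) w, ?_, hdeg, ?_⟩
  · exact mul_ne_zero (nonZeroDivisors.ne_zero b1.2) (nonZeroDivisors.ne_zero b2.2)
  · apply Polynomial.map_injective (algebraMap A (FractionRing A))
      (IsFractionRing.injective A (FractionRing A))
    rw [Polynomial.map_add, Polynomial.map_mul, Polynomial.map_mul, Polynomial.map_mul,
      Polynomial.map_mul, h1, h2, Polynomial.map_C, Polynomial.map_C, Polynomial.map_C,
      ← Polynomial.derivative_map, map_mul, C_mul]
    have e1 : ((b1 : A) • u) = C (algebraMap A (FractionRing A) b1) * u := by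
      rw [← Polynomial.smul_eq_C_mul, algebraMap_smul]
    have e2 : ((b2 : A) • w) = C (algebraMap A (FractionRing A) b2) * w := by
      rw [← Polynomial.smul_eq_C_mul, algebraMap_smul]
    rw [e1, e2]
    linear_combination (C (algebraMap A (FractionRing A) b1) *
      C (algebraMap A (FractionRing A) b2)) * huw

/-- Over a point where `G` does not vanish there are as many points as the degree. -/
theorem exists_homs {k A S : Type} [Field k] [IsAlgClosed k] [CommRing A] [IsDomain A]
    [IsIntegrallyClosed A] [CommRing S] [IsDomain S] [Algebra k A] [Algebra k S] [Algebra A S]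
    [IsScalarTower k A S] [Module.Finite A S] [FaithfulSMul A S] {θ : S} {G : A} {u w : A[X]}
    (huw : u * minpoly A θ + w * derivative (minpoly A θ) = C G) (e : A →ₐ[k] k) (he : e G ≠ 0) :
    ∃ ψ : Fin (minpoly A θ).natDegree → (S →ₐ[k] k), Function.Injective ψ ∧
      ∀ i a, ψ i (algebraMap A S a) = e a := by
  classical
  have hθi : IsIntegral A θ := Algebra.IsIntegral.isIntegral θ
  have hmonic := minpoly.monic hθi
  set f : k[X] := (minpoly A θ).map (e : A →+* k) with hf
  have hfm : f.Monic := hmonic.map _
  have hfd : f.natDegree = (minpoly A θ).natDegree := hmonic.natDegree_map _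
  have hsep : f.Separable := by
    have h1 := congrArg (Polynomial.map (e : A →+* k)) huw
    rw [Polynomial.map_add, Polynomial.map_mul, Polynomial.map_mul, Polynomial.map_C,
      ← Polynomial.derivative_map, ← hf] at h1
    refine ⟨C (e G)⁻¹ * u.map (e : A →+* k), C (e G)⁻¹ * w.map (e : A →+* k), ?_⟩
    rw [mul_assoc, mul_assoc, ← mul_add, h1, ← C_mul]
    have : (e G)⁻¹ * (e : A →+* k) G = 1 := inv_mul_cancel₀ he
    rw [this, C_1]
  have hcard : f.roots.toFinset.card = (minpoly A θ).natDegree := by
    rw [Multiset.toFinset_card_of_nodup (nodup_roots hsep), ← hfd]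
    exact ((IsAlgClosed.splits f).natDegree_eq_card_roots).symm
  let eqv := Finset.equivFinOfCardEq hcard
  have key : ∀ ρ : k, ρ ∈ f.roots.toFinset → ∃ ψ : S →ₐ[k] k, ψ θ = ρ ∧
      ∀ a, ψ (algebraMap A S a) = e a := by
    intro ρ hρ
    have hρ0 : f.eval ρ = 0 := by
      rw [Multiset.mem_toFinset, mem_roots hfm.ne_zero] at hρ
      exact hρ
    let algX : Algebra A[X] S := (Polynomial.aeval θ : A[X] →ₐ[A] S).toRingHom.toAlgebra
    have hmapX : ∀ p : A[X], algebraMap A[X] S p = Polynomial.aeval θ p := fun p => rfl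
    have : IsScalarTower A A[X] S := IsScalarTower.of_algebraMap_eq fun a => by
      rw [hmapX, Polynomial.algebraMap_eq, Polynomial.aeval_C]
    have : Algebra.IsIntegral A[X] S := ⟨fun s =>
      (Algebra.IsIntegral.isIntegral (R := A) s).tower_top⟩
    let g : A[X] →+* k := eval₂RingHom (e : A →+* k) ρ
    have hgC : ∀ a, g (C a) = e a := fun a => by simp [g]
    have hgX : g X = ρ := by simp [g]
    have : (RingHom.ker g).IsPrime := RingHom.ker_isPrime g
    obtain ⟨𝔮, _, h𝔮, h𝔮'⟩ := Ideal.exists_ideal_over_prime_of_isIntegral (RingHom.ker g)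
      (⊥ : Ideal S) (by
        intro p hp
        rw [Ideal.mem_comap, Ideal.mem_bot, hmapX] at hp
        obtain ⟨q, rfl⟩ := minpoly.isIntegrallyClosed_dvd hθi hp
        rw [RingHom.mem_ker, map_mul]
        have : g (minpoly A θ) = 0 := by
          rw [← hρ0, hf, eval_map]
          rfl
        rw [this, zero_mul])
    have hmem : ∀ p : A[X], g p = 0 → algebraMap A[X] S p ∈ 𝔮 := by
      intro p hp
      rw [← Ideal.mem_comap, h𝔮', RingHom.mem_ker]
      exact hp
    have h1 : ∀ a : A, algebraMap A S a - algebraMap k S (e a) ∈ 𝔮 := by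
      intro a
      have h2 := hmem (C a - C (algebraMap k A (e a))) (by
        rw [map_sub, hgC, hgC, AlgHom.commutes, Algebra.algebraMap_self_apply, sub_self])
      rw [hmapX, map_sub, Polynomial.aeval_C, Polynomial.aeval_C,
        ← IsScalarTower.algebraMap_apply] at h2
      exact h2
    have h2 : θ - algebraMap k S ρ ∈ 𝔮 := by
      have h3 := hmem (X - C (algebraMap k A ρ)) (by
        rw [map_sub, hgC, hgX, AlgHom.commutes, Algebra.algebraMap_self_apply, sub_self])
      rw [hmapX, map_sub, Polynomial.aeval_C, Polynomial.aeval_X,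
        ← IsScalarTower.algebraMap_apply] at h3
      exact h3
    have h3 : ∀ a : A, Ideal.Quotient.mk 𝔮 (algebraMap A S a) =
        algebraMap k (S ⧸ 𝔮) (e a) := by
      intro a
      exact (Ideal.Quotient.eq.2 (h1 a))
    have : Algebra.IsIntegral k (S ⧸ 𝔮) := ⟨fun z => by
      obtain ⟨s, rfl⟩ := Ideal.Quotient.mk_surjective z
      obtain ⟨p, hp, hps⟩ := Algebra.IsIntegral.isIntegral (R := A) s
      refine ⟨p.map (e : A →+* k), hp.map _, ?_⟩
      rw [eval₂_map]
      have h4 : (algebraMap k (S ⧸ 𝔮)).comp (e : A →+* k) =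
          (Ideal.Quotient.mk 𝔮).comp (algebraMap A S) := by
        ext a
        exact (h3 a).symm
      rw [h4, ← hom_eval₂, hps, map_zero]⟩
    have hbij := IsAlgClosed.algebraMap_bijective_of_isIntegral (k := k) (K := S ⧸ 𝔮)
    let E : k ≃ₐ[k] (S ⧸ 𝔮) := AlgEquiv.ofBijective (Algebra.ofId k (S ⧸ 𝔮)) hbij
    have hE : ∀ c : k, E c = algebraMap k (S ⧸ 𝔮) c := fun c => rfl
    refine ⟨(E.symm : (S ⧸ 𝔮) →ₐ[k] k).comp (Ideal.Quotient.mkₐ k 𝔮), ?_, fun a => ?_⟩
    · show E.symm (Ideal.Quotient.mk 𝔮 θ) = ρ
      rw [AlgEquiv.symm_apply_eq, hE]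
      exact Ideal.Quotient.eq.2 h2
    · show E.symm (Ideal.Quotient.mk 𝔮 (algebraMap A S a)) = e a
      rw [AlgEquiv.symm_apply_eq, hE]
      exact h3 a
  choose ψ hψ1 hψ2 using key
  refine ⟨fun i => ψ (eqv.symm i).1 (eqv.symm i).2, fun i j hij => ?_, fun i a => hψ2 _ _ a⟩
  have h1 : (eqv.symm i).1 = (eqv.symm j).1 := by
    rw [← hψ1 _ (eqv.symm i).2, ← hψ1 _ (eqv.symm j).2]
    exact congrArg (fun φ : S →ₐ[k] k => φ θ) hij
  exact eqv.symm.injective (Subtype.ext h1)

end Pool.Agent.H350R3.SE
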