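import Mathlib

set_option autoImplicit false

/-!
# Elementary estimates
-/

namespace Pool.Agent.H350R3.SE

theorem int_step {k r M a : ℕ} (hr : 3 ≤ r)
    (h : (M : ℝ) ≤ (1 + 1 / (r : ℝ) ^ (2 * k + 2)) * (Real.sqrt r * a)) :
    (M : ℝ) ≤ Real.sqrt r * a ∨
      ((r : ℝ) ^ k < M ∧ (M : ℝ) ≤ (1 + 1 / (r : ℝ) ^ k) * (Real.sqrt r * a)) := by
  have hrR : (3 : ℝ) ≤ r := by exact_mod_cast hr
  have hr0 : (0 : ℝ) < r := by linarith
  have hs0 : 0 ≤ Real.sqrt r := Real.sqrt_nonneg _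
  have hss : Real.sqrt r * Real.sqrt r = r := Real.mul_self_sqrt hr0.le
  rcases le_or_gt (M : ℝ) (Real.sqrt r * a) with h1 | h1
  · exact Or.inl h1
  · right
    obtain ⟨s, hs⟩ : ∃ s, s = Real.sqrt r * a := ⟨_, rfl⟩
    have hsn : 0 ≤ s := by rw [hs]; positivity
    rw [← hs] at h h1 ⊢
    have hs2 : s ^ 2 = ((r * a ^ 2 : ℕ) : ℝ) := by
      rw [hs]
      push_cast
      rw [mul_pow, pow_two (Real.sqrt (r : ℝ)), hss]
    obtain ⟨R, hR⟩ : ∃ R : ℝ, R = (r : ℝ) ^ (2 * k + 2) := ⟨_, rfl⟩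
    have hR1 : 1 ≤ R := by rw [hR]; exact one_le_pow₀ (by linarith)
    have hR0 : 0 < R := by linarith
    rw [← hR] at h
    have hε0 : 0 < 1 / R := by positivity
    have hε1 : 1 / R ≤ 1 := by
      rw [div_le_one hR0]
      exact hR1
    have h2 : s ^ 2 < (M : ℝ) ^ 2 := pow_lt_pow_left₀ h1 hsn (by norm_num)
    have h3 : s ^ 2 + 1 ≤ (M : ℝ) ^ 2 := by
      rw [hs2] at h2 ⊢
      have h4 : r * a ^ 2 < M ^ 2 := by exact_mod_cast h2
      have h5 : r * a ^ 2 + 1 ≤ M ^ 2 := h4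
      exact_mod_cast h5
    have h4 : (M : ℝ) ^ 2 ≤ ((1 + 1 / R) * s) ^ 2 := pow_le_pow_left₀ (Nat.cast_nonneg M) h 2
    have h5 : ((1 + 1 / R) * s) ^ 2 ≤ (1 + 3 * (1 / R)) * s ^ 2 := by
      rw [mul_pow]
      refine mul_le_mul_of_nonneg_right ?_ (sq_nonneg s)
      nlinarith
    have h6 : 1 ≤ 3 * (1 / R) * s ^ 2 := by linarith
    have h7 : R ≤ 3 * s ^ 2 := by
      have h8 := mul_le_mul_of_nonneg_left h6 hR0.le
      have h9 : R * (3 * (1 / R) * s ^ 2) = 3 * s ^ 2 := by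
        field_simp
      rw [h9, mul_one] at h8
      exact h8
    constructor
    · have h8 : ((r : ℝ) ^ k) ^ 2 * (r : ℝ) ^ 2 = R := by
        rw [hR, ← pow_mul, ← pow_add]
        congr 1
        ring
      have h9 : 0 ≤ ((r : ℝ) ^ k) ^ 2 := by positivity
      have h10 : ((r : ℝ) ^ k) ^ 2 < (M : ℝ) ^ 2 := by
        have h11 : (9 : ℝ) ≤ (r : ℝ) ^ 2 := by nlinarith
        have h12 : ((r : ℝ) ^ k) ^ 2 * 9 ≤ ((r : ℝ) ^ k) ^ 2 * (r : ℝ) ^ 2 :=
          mul_le_mul_of_nonneg_left h11 h9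
        have h13 : 0 < (M : ℝ) ^ 2 := lt_of_le_of_lt (sq_nonneg s) h2
        nlinarith
      exact lt_of_pow_lt_pow_left₀ 2 (Nat.cast_nonneg M) h10
    · refine h.trans ?_
      refine mul_le_mul_of_nonneg_right ?_ hsn
      have h8 : (r : ℝ) ^ k ≤ R := by
        rw [hR]
        exact pow_le_pow_right₀ (by linarith) (by omega)
      have h9 : 1 / R ≤ 1 / (r : ℝ) ^ k := one_div_le_one_div_of_le (by positivity) h8
      linarith

theorem le_zero_of_forall {X Y : ℝ} (h : ∀ m : ℕ, X * m ≤ Y) : X ≤ 0 := by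
  by_contra hX
  push Not at hX
  obtain ⟨m, hm⟩ := exists_nat_gt (Y / X)
  have h1 := h m
  rw [div_lt_iff₀ hX] at hm
  linarith [mul_comm X (m : ℝ)]

theorem choose_le {r m d : ℕ} (h : Real.sqrt r * m + Real.sqrt r ≤ d) :
    r * (m + 1).choose 2 ≤ (d + 2).choose 2 := by
  have hss : Real.sqrt r * Real.sqrt r = r := Real.mul_self_sqrt (Nat.cast_nonneg r)
  have h1 : 0 ≤ Real.sqrt r * m + Real.sqrt r := by positivity
  have h2 := mul_le_mul h h h1 (Nat.cast_nonneg d)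
  have h3 : (Real.sqrt r * m + Real.sqrt r) * (Real.sqrt r * m + Real.sqrt r) =
      r * ((m : ℝ) + 1) * (m + 1) := by
    linear_combination ((m : ℝ) + 1) ^ 2 * hss
  rw [h3] at h2
  have h4 : r * (m + 1) * (m + 1) ≤ d * d := by exact_mod_cast h2
  have h5 : 2 * (m + 1).choose 2 = (m + 1) * m := by
    rw [Nat.choose_two_right]
    have := Nat.even_mul_pred_self (m + 1)
    rw [Nat.add_sub_cancel] at this ⊢
    exact Nat.mul_div_cancel' this.two_dvd
  have h6 : 2 * (d + 2).choose 2 = (d + 2) * (d + 1) := by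
    rw [Nat.choose_two_right]
    have := Nat.even_mul_pred_self (d + 2)
    have e : d + 2 - 1 = d + 1 := rfl
    rw [e] at this ⊢
    exact Nat.mul_div_cancel' this.two_dvd
  have h7 : 2 * (r * (m + 1).choose 2) = r * (m + 1) * m := by
    rw [← mul_assoc, mul_comm 2 r, mul_assoc, h5, mul_assoc]
  have h8 : r * (m + 1) * m ≤ r * (m + 1) * (m + 1) := Nat.mul_le_mul_left _ (by omega)
  nlinarith

end Pool.Agent.H350R3.SE
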