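import Mathlib
import Pool.Agent.H350R3.SE.Surj

set_option autoImplicit false

/-!
# Very general points of the plane
-/

namespace Pool.Agent.H350R3.SE

open MvPolynomial Pool.Agent.H932R2 Pool.Agent.H932R3

/-- Countably many nonzero polynomials have a common point of non-vanishing. -/
theorem exists_avoid {σ ι : Type} [Fintype σ] [Countable ι] (Q : ι → MvPolynomial σ ℂ)
    (hQ : ∀ n, Q n ≠ 0) : ∃ x : σ → ℂ, ∀ n, eval x (Q n) ≠ 0 := by
  classical
  have hd : Dense (⋂ n, {x : σ → ℂ | eval x (Q n) ≠ 0}) := by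
    refine dense_iInter_of_isOpen (fun n => ?_) (fun n => ?_)
    · exact isOpen_ne_fun (MvPolynomial.continuous_eval (Q n)) continuous_const
    · rw [← Set.compl_setOf, ← interior_eq_empty_iff_dense_compl]
      by_contra hne
      obtain ⟨x, hx⟩ := Set.nonempty_iff_ne_empty.2 hne
      obtain ⟨ε, hε, hball⟩ := Metric.isOpen_iff.1 isOpen_interior x hx
      apply hQ n
      refine MvPolynomial.funext_set (fun i => Metric.ball (x i) ε) (fun i => ?_) (fun z hz => ?_)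
      · exact infinite_of_mem_nhds (x i) (Metric.ball_mem_nhds (x i) hε)
      · have h1 : z ∈ Metric.ball x ε := by
          rw [ball_pi x hε]
          exact hz
        have h2 := interior_subset (hball h1)
        rw [map_zero]
        exact h2
  obtain ⟨x, hx⟩ := hd.nonempty
  exact ⟨x, fun n => Set.mem_iInter.1 hx n⟩

theorem exists_points (q : ℕ) : ∃ N : ℕ, 16 ≤ N ∧ ∀ r : ℕ, N ≤ r →
    ∀ G : ℕ → MvPolynomial (Fin 3) ℂ, (∀ l, G l ≠ 0) →
    ∃ v : Fin r → Fin 3 → ℂ, (∀ j, v j 2 ≠ 0) ∧ (∀ j l, eval (v j) (G l) ≠ 0) ∧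
      (∀ i j, i ≠ j → v i 0 * v j 2 ≠ v j 0 * v i 2) ∧
      ∀ m d : ℕ, 0 < d →
        (1 + 1 / (r : ℝ) ^ q) * (Real.sqrt r * m) + Real.sqrt r ≤ d →
        ExpDim ℂ (fun _ : Fin r => m) (fun j i => v j (Fin.castSucc i) / v j 2) d := by
  classical
  obtain ⟨N, hN16, hN⟩ := wedge_exp q
  refine ⟨N, hN16, fun r hr G hG => ?_⟩
  have h1 : ∀ m : ℕ, ∃ Q : MvPolynomial (Fin r × Fin 3) ℂ, Q ≠ 0 ∧ ∀ v : Fin r → Fin 3 → ℂ,
      eval (fun p : Fin r × Fin 3 => v p.1 p.2) Q ≠ 0 → (∀ i, v i 2 ≠ 0) ∧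
      ∀ d : ℕ, 0 < d → (1 + 1 / (r : ℝ) ^ q) * (Real.sqrt r * m) + Real.sqrt r ≤ d →
        ExpDim ℂ (fun _ : Fin r => m) (fun j i => v j (Fin.castSucc i) / v j 2) d := by
    intro m
    obtain ⟨F, hF, hF'⟩ := hN ℂ r hr (fun _ => m)
    obtain ⟨Q, hQ, hQ'⟩ := exists_homogenise (F.map (algebraMap ℚ ℂ)) (map_ne_zero_of hF)
    refine ⟨Q, hQ, fun v hv => ?_⟩
    obtain ⟨h2, h3⟩ := hQ' v hv
    refine ⟨h2, fun d hd hle => hF' (fun j i => v j (Fin.castSucc i) / v j 2) ?_ d hd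
      (Or.inr fun _ => hle)⟩
    rw [MvPolynomial.eval_map] at h3
    exact h3
  choose Q hQ hQ' using h1
  let ι := ℕ ⊕ ((Fin r × ℕ) ⊕ {p : Fin r × Fin r // p.1 ≠ p.2})
  let P : ι → MvPolynomial (Fin r × Fin 3) ℂ := fun s => match s with
    | Sum.inl m => Q m
    | Sum.inr (Sum.inl j) => rename (fun i => (j.1, i)) (G j.2)
    | Sum.inr (Sum.inr p) => X (p.1.1, 0) * X (p.1.2, 2) - X (p.1.2, 0) * X (p.1.1, 2)
  obtain ⟨x, hx⟩ := exists_avoid P (by
    rintro (m | ⟨j, l⟩ | ⟨⟨i, j⟩, hij⟩)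
    · exact hQ m
    · show rename (fun i => (j, i)) (G l) ≠ 0
      intro h0
      apply hG l
      refine rename_injective (fun i : Fin 3 => (j, i)) ?_ (by rw [h0, map_zero])
      intro a b hab
      exact (Prod.mk.injEq _ _ _ _ ▸ hab).2
    · show (X (i, 0) * X (j, 2) - X (j, 0) * X (i, 2) : MvPolynomial (Fin r × Fin 3) ℂ) ≠ 0
      intro h0
      have hji : j ≠ i := fun h => hij h.symm
      have h2 := congrArg (eval (fun p : Fin r × Fin 3 =>
        if p = (i, 0) ∨ p = (j, 2) then (1 : ℂ) else 0)) h0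
      simp [hji, hij] at h2)
  refine ⟨fun j i => x (j, i), fun j => ?_, fun j l => ?_, fun i j hij => ?_,
    fun m d hd hle => ?_⟩
  · exact (hQ' 0 (fun j i => x (j, i)) (hx (Sum.inl 0))).1 j
  · have h2 := hx (Sum.inr (Sum.inl (j, l)))
    change eval x (rename (fun i => (j, i)) (G l)) ≠ 0 at h2
    rw [eval_rename] at h2
    exact h2
  · have h2 := hx (Sum.inr (Sum.inr ⟨(i, j), hij⟩))
    change eval x (X (i, 0) * X (j, 2) - X (j, 0) * X (i, 2)) ≠ 0 at h2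
    rw [map_sub, map_mul, map_mul, eval_X, eval_X, eval_X, eval_X] at h2
    exact sub_ne_zero.1 h2
  · exact (hQ' m (fun j i => x (j, i)) (hx (Sum.inl m))).2 d hd hle

end Pool.Agent.H350R3.SE
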